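import Pool.Agent.Y480.PI.Main
import Pool.Agent.TH100.Pisot.Pow

/-!
# Bounded letter changes and the Pisot substitution conjecture

Let `M` be a nonnegative unimodular irreducible Pisot matrix with leading eigenvalue `lam` and
right eigenvector `u` of sum one, and let `SubSet u (M ^ n) B` be the set of the substitutions with
incidence matrix `M ^ n` all of whose prefixes (of images of letters) have discrepancy at most `B`.
For every `B` above a constant depending only on `M` the set `SubSet u (M ^ n) B` contains all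
compositions of `n` substitutions with incidence matrix `M`, in particular the `n`-th powers of all
these substitutions, and there are `L`, `c > 0` and `n₀` such that for every `n ≥ n₀`, every
`σ` in `SubSet u (M ^ n) B` and every set `Z` of at most `c lam ^ n` places there is a substitution
`S` in the same set with the following properties: `S` has the letters of `σ` at the places of `Z`,
every image `S a` differs from `σ a` in at most `L` letters (`L` does not depend on `n`), and every
composition of `S` with arbitrary substitutions from the sets `SubSet u (M ^ i) B`, `i ≥ 1`, on both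
sides is a unimodular irreducible Pisot substitution which is semi-conjugate to a toral translation.

Built on the library `Pool/Agent/H812R2/PI` (helper812 and others; `surgery`, `geom`, `GBad_good`,
`JFin_semi`) and on `Pool/Agent/TH100/Pisot` (compositions with factors of bounded discrepancy).
-/

set_option autoImplicit false

namespace Pool.Agent.Results.MP_e732b0_an.BoundedLetterChanges

open Pool.Agent.H812R2.PI

theorem result {m : ℕ} (M : Matrix (Fin (m+1)) (Fin (m+1)) ℤ)
    (hnn : ∀ i j, 0 ≤ M i j) (hM : PisotMat M) (lam : ℝ) (hlam : 1 < lam)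
    (u : Fin (m+1) → ℝ) (hu : ∀ i, ∑ j, (M i j : ℝ) * u j = lam * u i)
    (husum : ∑ i, u i = 1) :
    ∃ B₀ : ℝ, ∀ B ≥ B₀,
      (∀ l : List (Fin (m+1) → List (Fin (m+1))), (∀ τ ∈ l, inc τ = M) →
        compList l ∈ SubSet u (M ^ l.length) B) ∧
      ∃ L : ℕ, ∃ c : ℝ, 0 < c ∧ ∃ n₀ : ℕ, ∀ n ≥ n₀, ∀ σ ∈ SubSet u (M ^ n) B,
        ∀ Z : Finset (Fin (m+1) × ℕ), (Z.card : ℝ) ≤ c * lam ^ n →
        ∃ S ∈ SubSet u (M ^ n) B, (∀ p ∈ Z, (S p.1)[p.2]? = (σ p.1)[p.2]?) ∧
          (∀ a, (S a).length = (σ a).length ∧ {k : ℕ | (S a)[k]? ≠ (σ a)[k]?}.encard ≤ L) ∧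
          ∀ l₁ l₂ : List (Fin (m+1) → List (Fin (m+1))),
            (∀ ρ ∈ l₁ ++ l₂, ∃ i, 1 ≤ i ∧ ρ ∈ SubSet u (M ^ i) B) →
            PisotMat (inc (compList (l₁ ++ [S] ++ l₂))) ∧
            SemiConjToral (compList (l₁ ++ [S] ++ l₂)) := by
  obtain ⟨B₀, h⟩ := Pool.Agent.Y480.PI.main M hnn hM lam hlam u hu husum
  refine ⟨B₀, fun B hB => ?_⟩
  obtain ⟨h1, L, c, hc, n₀, h2⟩ := h B hB
  refine ⟨h1, L, c, hc, n₀, fun n hn σ hσ Z hZ => ?_⟩
  obtain ⟨S, hS, hSZ, hSd, hSl⟩ := h2 n hn σ hσ Z hZ
  refine ⟨S, hS, hSZ, hSd, fun l₁ l₂ hl => ?_⟩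
  obtain ⟨⟨N, hN, h3⟩, h4⟩ := hSl l₁ l₂ hl
  refine ⟨?_, h4⟩
  rw [h3]
  exact Pool.Agent.TH100.Pisot.pisotMat_pow M hnn hM N hN

end Pool.Agent.Results.MP_e732b0_an.BoundedLetterChanges
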