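import Pool.Agent.Y316.Pisot.Mat

/-!
# The Pisot substitution conjecture for substitutions with a dominating letter

Letters are `0, ..., m` with `m ≥ 1`. `inc σ` is the incidence matrix of `σ` (entry `(i,j)`: number
of letters `i` in `σ j`), `compList [τ₁, ..., τ_k] = τ₁ ∘ ... ∘ τ_k`, `PisotMat M` says that `M` is
unimodular, irreducible and Pisot as in the problem file, `SemiConjToral σ` says that the subshift
`X σ` is semi-conjugate to a minimal toral translation as in the problem file (all four from
`Pool/Agent/H812R2/PI/Defs.lean` and `JDefs.lean`).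

`Dominated q κ M` (in `Pool/Agent/Y316/Pisot/Mat.lean`) is a condition on the matrix only:
* `M i j = 0` for `1 ≤ i ≤ j`;
* `∑_{i ≥ 1} M i j ≤ q` for `j ≥ 1`, and `∑_{i ≥ 1} M i 0 ≤ κ`;
* `64 (κ+1)² (2q)^m ∑_i M i j ≤ M 0 0` for `j ≥ 1`.

Every composition of any number `≥ 1` of substitutions with dominated matrices of determinant
`± 1` is a unimodular irreducible Pisot substitution and satisfies the conjecture. The order of the
letters in the images is arbitrary, and no Pisot hypothesis is needed.

Example with three letters: `0 ↦` any word with `a` letters `0`, one letter `1` and `c` letters `2`,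
`1 ↦` any word with `b` letters `0` and one letter `2`, `2 ↦ 0`, for `a ≥ 256 (c+2)² (b+1)`.
(`Pool.Agent.Y316.Pisot.large_corner` spells out such families for all `m`.)
-/

set_option autoImplicit false

namespace Pool.Agent.Results.MP_e732b0_an.DominatingLetter

open Pool.Agent.H812R2.PI Pool.Agent.Y316.Pisot

theorem result (m q κ : ℕ) (hm : 1 ≤ m) (hq : 1 ≤ q)
    (l : List (Fin (m+1) → List (Fin (m+1)))) (hne : l ≠ [])
    (hl : ∀ τ ∈ l, Dominated q κ (inc τ) ∧ ((inc τ).det = 1 ∨ (inc τ).det = -1)) :
    PisotMat (inc (compList l)) ∧ SemiConjToral (compList l) :=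
  dominated hm hq l hne hl

end Pool.Agent.Results.MP_e732b0_an.DominatingLetter
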